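import Pool.Agent.Helper10.QRH.StB

/-! QRH-B1: van der Corput's second derivative test (project QRH, MP_768c9c_nt). -/

set_option autoImplicit false
open Filter Topology
open scoped Classical

namespace Pool.Agent.Helper64.QRH

open Pool.Agent.Helper10.QRH

/-! ### the exponential -/

theorem ee_add (x y : ℝ) : ee (x + y) = ee x * ee y := by
  unfold ee
  rw [← Complex.exp_add]
  congr 1
  push_cast
  ring

theorem ee_eq (x : ℝ) : ee x = (Real.cos (2 * Real.pi * x) : ℂ) +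
    (Real.sin (2 * Real.pi * x) : ℂ) * Complex.I := by
  unfold ee
  have : (2 * (Real.pi : ℂ) * (x : ℂ) * Complex.I) = ((2 * Real.pi * x : ℝ) : ℂ) * Complex.I := by
    push_cast; ring
  rw [this, Complex.exp_mul_I, Complex.ofReal_cos, Complex.ofReal_sin]

theorem norm_ee (x : ℝ) : ‖ee x‖ = 1 := by
  unfold ee
  have : (2 * (Real.pi : ℂ) * (x : ℂ) * Complex.I) = ((2 * Real.pi * x : ℝ) : ℂ) * Complex.I := by
    push_cast; ring
  rw [this, Complex.norm_exp_ofReal_mul_I]

theorem ee_sub_int (x : ℝ) (m : ℤ) : ee (x - m) = ee x := by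
  rw [ee_eq, ee_eq]
  have h : 2 * Real.pi * (x - m) = 2 * Real.pi * x - m * (2 * Real.pi) := by ring
  rw [h, Real.cos_sub_int_mul_two_pi, Real.sin_sub_int_mul_two_pi]

/-- cotangent of `π x` -/
noncomputable def ct (x : ℝ) : ℝ := Real.cos (Real.pi * x) / Real.sin (Real.pi * x)

/-- `1/(1 - e(x))` -/
noncomputable def gg (x : ℝ) : ℂ := 1 / 2 + (ct x / 2 : ℝ) * Complex.I

theorem sin_lower {D x : ℝ} (hD : 0 < D) (h1 : D ≤ x) (h2 : x ≤ 1 - D) :
    2 * D ≤ Real.sin (Real.pi * x) := by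
  have hpi := Real.pi_pos
  rcases le_total x (1/2) with h | h
  · have := Real.mul_le_sin (x := Real.pi * x) (mul_nonneg hpi.le (by linarith)) (by nlinarith)
    have h3 : 2 / Real.pi * (Real.pi * x) = 2 * x := by field_simp
    rw [h3] at this
    linarith
  · have := Real.mul_le_sin (x := Real.pi * (1 - x)) (by nlinarith) (by nlinarith)
    have h3 : 2 / Real.pi * (Real.pi * (1 - x)) = 2 * (1 - x) := by field_simp
    rw [h3] at this
    have h4 : Real.sin (Real.pi * (1 - x)) = Real.sin (Real.pi * x) := by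
      rw [show Real.pi * (1 - x) = Real.pi - Real.pi * x by ring, Real.sin_pi_sub]
    linarith

theorem gg_mul {x : ℝ} (h : Real.sin (Real.pi * x) ≠ 0) : (1 - ee x) * gg x = 1 := by
  rw [ee_eq]
  unfold gg ct
  have h2 : 2 * Real.pi * x = 2 * (Real.pi * x) := by ring
  rw [h2, Real.cos_two_mul, Real.sin_two_mul]
  have hs : ((Real.sin (Real.pi * x) : ℝ) : ℂ) ≠ 0 := by exact_mod_cast h
  have hc := Real.sin_sq_add_cos_sq (Real.pi * x)
  have hcc : ((Real.sin (Real.pi * x) : ℝ) : ℂ) ^ 2 + ((Real.cos (Real.pi * x) : ℝ) : ℂ) ^ 2 = 1 := by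
    exact_mod_cast hc
  push_cast [-Complex.ofReal_sin, -Complex.ofReal_cos]
  field_simp
  generalize ((Real.sin (Real.pi * x) : ℝ) : ℂ) = s at hcc ⊢
  generalize ((Real.cos (Real.pi * x) : ℝ) : ℂ) = c at hcc ⊢
  linear_combination (-(2 * Complex.I * c)) * hcc + (-2 * s * c ^ 2) * Complex.I_sq

theorem ct_sub {x y : ℝ} (hx : Real.sin (Real.pi * x) ≠ 0) (hy : Real.sin (Real.pi * y) ≠ 0) :
    ct x - ct y = Real.sin (Real.pi * (y - x)) / (Real.sin (Real.pi * x) * Real.sin (Real.pi * y)) := by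
  unfold ct
  rw [show Real.pi * (y - x) = Real.pi * y - Real.pi * x by ring, Real.sin_sub]
  field_simp

theorem ct_anti {D x y : ℝ} (hD : 0 < D) (h1 : D ≤ x) (hxy : x ≤ y) (h2 : y ≤ 1 - D) :
    ct y ≤ ct x := by
  have hx := sin_lower hD h1 (hxy.trans h2)
  have hy := sin_lower hD (h1.trans hxy) h2
  have h := ct_sub (x := x) (y := y) (by linarith) (by linarith)
  have hpi := Real.pi_pos
  have h3 : 0 ≤ Real.sin (Real.pi * (y - x)) :=
    Real.sin_nonneg_of_nonneg_of_le_pi (by nlinarith) (by nlinarith)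
  have : 0 ≤ ct x - ct y := by
    rw [h]
    apply div_nonneg h3
    apply mul_nonneg <;> linarith
  linarith

theorem abs_ct_le {D x : ℝ} (hD : 0 < D) (h1 : D ≤ x) (h2 : x ≤ 1 - D) :
    |ct x| ≤ 1 / (2 * D) := by
  have hx := sin_lower hD h1 h2
  unfold ct
  rw [abs_div, abs_of_pos (show 0 < Real.sin (Real.pi * x) by linarith)]
  exact div_le_div₀ zero_le_one (Real.abs_cos_le_one _) (by linarith) hx

theorem norm_gg_le {D x : ℝ} (hD : 0 < D) (hD2 : D ≤ 1/2) (h1 : D ≤ x) (h2 : x ≤ 1 - D) :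
    ‖gg x‖ ≤ 3 / (4 * D) := by
  have h := abs_ct_le hD h1 h2
  unfold gg
  calc ‖(1/2 : ℂ) + (ct x / 2 : ℝ) * Complex.I‖ ≤ ‖(1/2 : ℂ)‖ + ‖((ct x / 2 : ℝ) : ℂ) * Complex.I‖ :=
        norm_add_le _ _
    _ = 1/2 + |ct x| / 2 := by
        rw [norm_mul, Complex.norm_I, mul_one, Complex.norm_real, Real.norm_eq_abs, abs_div]
        norm_num
    _ ≤ 1/2 + (1 / (2 * D)) / 2 := by linarith
    _ ≤ 3 / (4 * D) := by
        rw [div_add_div _ _ (by norm_num) (by norm_num), div_le_div_iff₀ (by norm_num) (by positivity)]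
        have : 1 / (2 * D) * D = 1/2 := by field_simp
        nlinarith

theorem norm_gg_sub {x y : ℝ} : ‖gg x - gg y‖ = |ct x - ct y| / 2 := by
  unfold gg
  have : (1 / 2 + ((ct x / 2 : ℝ) : ℂ) * Complex.I) - (1 / 2 + ((ct y / 2 : ℝ) : ℂ) * Complex.I)
      = (((ct x - ct y) / 2 : ℝ) : ℂ) * Complex.I := by
    push_cast; ring
  rw [this, norm_mul, Complex.norm_I, mul_one, Complex.norm_real, Real.norm_eq_abs, abs_div]
  norm_num

/-! ### Kusmin–Landau -/

theorem KL_aux {D : ℝ} (hD : 0 < D) (z : ℕ → ℂ) (x : ℕ → ℝ) (N : ℕ)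
    (hz : ∀ n, ‖z n‖ ≤ 1) (hx : ∀ n ≤ N, D ≤ x n ∧ x n ≤ 1 - D)
    (hm : ∀ n < N, x n ≤ x (n + 1)) (hs : ∀ n ≤ N, z (n + 1) = z n * ee (x n)) :
    ‖∑ n ∈ Finset.range (N + 1), z n - (gg (x 0) * z 0 - gg (x N) * z (N + 1))‖ ≤
      (ct (x 0) - ct (x N)) / 2 := by
  have hg : ∀ n ≤ N, z n = (z n - z (n + 1)) * gg (x n) := by
    intro n hn
    have h := gg_mul (x := x n) (by
      have := sin_lower hD (hx n hn).1 (hx n hn).2
      linarith)
    rw [hs n hn]
    calc z n = z n * 1 := by ring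
      _ = z n * ((1 - ee (x n)) * gg (x n)) := by rw [h]
      _ = _ := by ring
  induction N with
  | zero =>
    have h0 := hg 0 le_rfl
    have : ∑ n ∈ Finset.range (0 + 1), z n - (gg (x 0) * z 0 - gg (x 0) * z (0 + 1)) = 0 := by
      rw [Finset.sum_range_one]
      nth_rewrite 1 [h0]
      ring
    rw [this]
    simp
  | succ N ih =>
    have ih' := ih (fun n hn => hx n (by omega)) (fun n hn => hm n (by omega))
      (fun n hn => hs n (by omega)) (fun n hn => hg n (by omega))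
    rw [Finset.sum_range_succ]
    have h0 := hg (N + 1) le_rfl
    have key : ∑ n ∈ Finset.range (N + 1), z n + z (N + 1) -
        (gg (x 0) * z 0 - gg (x (N + 1)) * z (N + 1 + 1)) =
        (∑ n ∈ Finset.range (N + 1), z n - (gg (x 0) * z 0 - gg (x N) * z (N + 1))) +
        z (N + 1) * (gg (x (N + 1)) - gg (x N)) := by
      have : z (N + 1) + gg (x (N + 1)) * z (N + 1 + 1) = z (N + 1) * gg (x (N + 1)) := by
        nth_rewrite 1 [h0]
        ring
      linear_combination this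
    rw [key]
    refine (norm_add_le _ _).trans ?_
    have h1 : ‖z (N + 1) * (gg (x (N + 1)) - gg (x N))‖ ≤ (ct (x N) - ct (x (N + 1))) / 2 := by
      rw [norm_mul, norm_gg_sub]
      have ha := ct_anti hD (hx N (by omega)).1 (hm N (by omega)) (hx (N + 1) le_rfl).2
      rw [abs_sub_comm, abs_of_nonneg (by linarith : 0 ≤ ct (x N) - ct (x (N + 1)))]
      have := hz (N + 1)
      nlinarith [norm_nonneg (z (N + 1))]
    linarith

theorem KL {D : ℝ} (hD : 0 < D) (hD2 : D ≤ 1/2) (z : ℕ → ℂ) (x : ℕ → ℝ) (N : ℕ)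
    (hz : ∀ n, ‖z n‖ ≤ 1) (hx : ∀ n ≤ N, D ≤ x n ∧ x n ≤ 1 - D)
    (hm : ∀ n < N, x n ≤ x (n + 1)) (hs : ∀ n ≤ N, z (n + 1) = z n * ee (x n)) :
    ‖∑ n ∈ Finset.range (N + 1), z n‖ ≤ 2 / D := by
  have h := KL_aux hD z x N hz hx hm hs
  have h1 := norm_gg_le hD hD2 (hx 0 (by omega)).1 (hx 0 (by omega)).2
  have h2 := norm_gg_le hD hD2 (hx N le_rfl).1 (hx N le_rfl).2
  have h3 := abs_ct_le hD (hx 0 (by omega)).1 (hx 0 (by omega)).2
  have h4 := abs_ct_le hD (hx N le_rfl).1 (hx N le_rfl).2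
  have e : ∑ n ∈ Finset.range (N + 1), z n =
      (∑ n ∈ Finset.range (N + 1), z n - (gg (x 0) * z 0 - gg (x N) * z (N + 1))) +
      (gg (x 0) * z 0 - gg (x N) * z (N + 1)) := by ring
  rw [e]
  refine (norm_add_le _ _).trans ?_
  have h5 : ‖gg (x 0) * z 0 - gg (x N) * z (N + 1)‖ ≤ 3 / (4 * D) + 3 / (4 * D) := by
    refine (norm_sub_le _ _).trans (add_le_add ?_ ?_)
    · rw [norm_mul]
      calc ‖gg (x 0)‖ * ‖z 0‖ ≤ ‖gg (x 0)‖ * 1 :=
            mul_le_mul_of_nonneg_left (hz 0) (norm_nonneg _)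
        _ ≤ _ := by linarith
    · rw [norm_mul]
      calc ‖gg (x N)‖ * ‖z (N + 1)‖ ≤ ‖gg (x N)‖ * 1 :=
            mul_le_mul_of_nonneg_left (hz _) (norm_nonneg _)
        _ ≤ _ := by linarith
  have h6 : (ct (x 0) - ct (x N)) / 2 ≤ 1 / (2 * D) := by
    have := abs_le.1 h3
    have := abs_le.1 h4
    linarith
  calc _ ≤ 1 / (2 * D) + (3 / (4 * D) + 3 / (4 * D)) := by linarith
    _ = 2 / D := by field_simp; norm_num

/-! ### the second derivative test for sequences -/

section seq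

variable {z : ℕ → ℂ} {δ : ℕ → ℝ} {N : ℕ} {lam A : ℝ}

theorem delta_diff (h1 : ∀ n, n + 1 < N → lam ≤ δ (n + 1) - δ n) :
    ∀ k p : ℕ, p + k < N → k * lam ≤ δ (p + k) - δ p := by
  intro k
  induction k with
  | zero => intro p _; simp
  | succ k ih =>
    intro p hp
    have h2 := ih p (by omega)
    have h3 := h1 (p + k) (by omega)
    rw [← add_assoc]
    push_cast
    nlinarith

theorem delta_diff_up (h1 : ∀ n, n + 1 < N → δ (n + 1) - δ n ≤ A * lam) :
    ∀ k p : ℕ, p + k < N → δ (p + k) - δ p ≤ k * (A * lam) := by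
  intro k
  induction k with
  | zero => intro p _; simp
  | succ k ih =>
    intro p hp
    have h2 := ih p (by omega)
    have h3 := h1 (p + k) (by omega)
    rw [← add_assoc]
    push_cast
    nlinarith

theorem delta_mono (hl : 0 < lam) (h1 : ∀ n, n + 1 < N → lam ≤ δ (n + 1) - δ n) {p q : ℕ}
    (hpq : p ≤ q) (hq : q < N) : δ p ≤ δ q := by
  obtain ⟨k, rfl⟩ := Nat.exists_eq_add_of_le hpq
  have := delta_diff h1 k p hq
  have h2 : (0 : ℝ) ≤ k * lam := by positivity
  linarith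

theorem count_le (hl : 0 < lam) (h1 : ∀ n, n + 1 < N → lam ≤ δ (n + 1) - δ n) (T : Finset ℕ)
    (hT : T ⊆ Finset.range N) {u D : ℝ} (hD : 0 ≤ D) (hu : ∀ n ∈ T, u ≤ δ n ∧ δ n ≤ u + D) :
    (T.card : ℝ) ≤ D / lam + 1 := by
  rcases T.eq_empty_or_nonempty with h | h
  · rw [h]; simp; positivity
  · have hp := T.min'_mem h
    have hq := T.max'_mem h
    have hpq : T.min' h ≤ T.max' h := T.min'_le _ hq
    obtain ⟨k, hk⟩ := Nat.exists_eq_add_of_le hpq
    have hqN : T.max' h < N := Finset.mem_range.1 (hT hq)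
    have h3 := delta_diff h1 k (T.min' h) (by omega)
    rw [← hk] at h3
    have h4 : T.card ≤ k + 1 := by
      have : T ⊆ Finset.Icc (T.min' h) (T.max' h) := fun n hn =>
        Finset.mem_Icc.2 ⟨T.min'_le _ hn, T.le_max' _ hn⟩
      have h5 := Finset.card_le_card this
      rw [Nat.card_Icc] at h5
      omega
    have h5 : (T.card : ℝ) ≤ k + 1 := by exact_mod_cast h4
    have h6 : (k : ℝ) ≤ D / lam := by
      rw [le_div_iff₀ hl]
      linarith [(hu _ hp).1, (hu _ hq).2]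
    linarith

theorem mid_le (hl : 0 < lam) (hz : ∀ n, ‖z n‖ ≤ 1) (hs : ∀ n < N, z (n + 1) = z n * ee (δ n))
    (h1 : ∀ n, n + 1 < N → lam ≤ δ (n + 1) - δ n) {D : ℝ} (hD : 0 < D) (hD2 : D ≤ 1/2) (m : ℤ) :
    ‖∑ n ∈ (Finset.range N).filter (fun n => (m : ℝ) + D ≤ δ n ∧ δ n ≤ m + 1 - D), z n‖ ≤ 2 / D := by
  set T := (Finset.range N).filter (fun n => (m : ℝ) + D ≤ δ n ∧ δ n ≤ m + 1 - D) with hT
  rcases T.eq_empty_or_nonempty with h | h
  · rw [h]; simp; positivity
  · have hp := T.min'_mem h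
    have hq := T.max'_mem h
    set p := T.min' h with hpdef
    set q := T.max' h with hqdef
    have hpq : p ≤ q := T.min'_le _ hq
    have hpm := (Finset.mem_filter.1 hp)
    have hqm := (Finset.mem_filter.1 hq)
    have hqN : q < N := Finset.mem_range.1 hqm.1
    obtain ⟨k, hk⟩ := Nat.exists_eq_add_of_le hpq
    have hTI : T = Finset.Icc p q := by
      ext n
      constructor
      · intro hn
        exact Finset.mem_Icc.2 ⟨T.min'_le _ hn, T.le_max' _ hn⟩
      · intro hn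
        rw [Finset.mem_Icc] at hn
        rw [hT, Finset.mem_filter]
        refine ⟨Finset.mem_range.2 (by omega), ?_, ?_⟩
        · exact hpm.2.1.trans (delta_mono hl h1 hn.1 (by omega))
        · exact (delta_mono hl h1 hn.2 hqN).trans hqm.2.2
    have hsum : ∑ n ∈ T, z n = ∑ i ∈ Finset.range (k + 1), z (p + i) := by
      rw [hTI, hk]
      rw [← Finset.Ico_add_one_right_eq_Icc, Finset.sum_Ico_eq_sum_range]
      congr 1
      congr 1
      omega
    rw [hsum]
    refine KL hD hD2 (fun i => z (p + i)) (fun i => δ (p + i) - m) k (fun n => hz _) ?_ ?_ ?_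
    · intro i hi
      have : p + i ∈ T := by
        rw [hTI, Finset.mem_Icc]; omega
      have := (Finset.mem_filter.1 this).2
      constructor <;> linarith [this.1, this.2]
    · intro i hi
      have := h1 (p + i) (by omega)
      have e : p + (i + 1) = p + i + 1 := by ring
      simp only [e]
      linarith
    · intro i hi
      have := hs (p + i) (by omega)
      have e : p + (i + 1) = p + i + 1 := by ring
      simp only [e]
      rw [this, ee_sub_int]

theorem class_le (hl : 0 < lam) (hz : ∀ n, ‖z n‖ ≤ 1) (hs : ∀ n < N, z (n + 1) = z n * ee (δ n))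
    (h1 : ∀ n, n + 1 < N → lam ≤ δ (n + 1) - δ n) {D : ℝ} (hD : 0 < D) (hD2 : D ≤ 1/4) (m : ℤ) :
    ‖∑ n ∈ (Finset.range N).filter (fun n => ⌊δ n⌋ = m), z n‖ ≤ 2 / D + 2 * (D / lam + 1) := by
  set T := (Finset.range N).filter (fun n => ⌊δ n⌋ = m) with hT
  set T1 := (Finset.range N).filter (fun n => (m : ℝ) + D ≤ δ n ∧ δ n ≤ m + 1 - D) with hT1
  set T2 := (Finset.range N).filter (fun n => (m : ℝ) ≤ δ n ∧ δ n < m + D) with hT2
  set T3 := (Finset.range N).filter (fun n => (m : ℝ) + 1 - D < δ n ∧ δ n < m + 1) with hT3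
  have d12 : Disjoint T1 T2 := by
    rw [Finset.disjoint_left]
    intro n h h'
    have h1' := (Finset.mem_filter.1 h).2
    have h2' := (Finset.mem_filter.1 h').2
    linarith [h1'.1, h2'.2]
  have d3 : Disjoint (T1 ∪ T2) T3 := by
    rw [Finset.disjoint_left]
    intro n h h'
    have h2' := (Finset.mem_filter.1 h').2
    rcases Finset.mem_union.1 h with h | h
    · have h1' := (Finset.mem_filter.1 h).2
      linarith [h1'.2, h2'.1]
    · have h1' := (Finset.mem_filter.1 h).2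
      linarith [h1'.2, h2'.1]
  have hU : T = (T1 ∪ T2) ∪ T3 := by
    ext n
    rw [Finset.mem_union, Finset.mem_union, hT, hT1, hT2, hT3]
    simp only [Finset.mem_filter, Finset.mem_range, Int.floor_eq_iff]
    constructor
    · rintro ⟨hn, ha, hb⟩
      rcases lt_or_ge (δ n) (m + D) with h | h
      · exact Or.inl (Or.inr ⟨hn, ha, h⟩)
      · rcases le_or_gt (δ n) (m + 1 - D) with h' | h'
        · exact Or.inl (Or.inl ⟨hn, h, h'⟩)
        · exact Or.inr ⟨hn, h', hb⟩
    · rintro ((⟨hn, ha, hb⟩ | ⟨hn, ha, hb⟩) | ⟨hn, ha, hb⟩)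
      · exact ⟨hn, by linarith, by linarith⟩
      · exact ⟨hn, by linarith, by linarith⟩
      · exact ⟨hn, by linarith, by linarith⟩
  rw [hU, Finset.sum_union d3, Finset.sum_union d12]
  have b1 := mid_le hl hz hs h1 hD (by linarith) m
  rw [← hT1] at b1
  have triv : ∀ S : Finset ℕ, ‖∑ n ∈ S, z n‖ ≤ S.card := by
    intro S
    refine (norm_sum_le _ _).trans ?_
    refine (Finset.sum_le_sum (fun n _ => hz n)).trans ?_
    simp
  have b2 : ‖∑ n ∈ T2, z n‖ ≤ D / lam + 1 := by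
    refine (triv T2).trans ?_
    refine count_le hl h1 T2 (Finset.filter_subset _ _) (u := m) (D := D) hD.le ?_
    intro n hn
    have := (Finset.mem_filter.1 hn).2
    exact ⟨this.1, this.2.le⟩
  have b3 : ‖∑ n ∈ T3, z n‖ ≤ D / lam + 1 := by
    refine (triv T3).trans ?_
    refine count_le hl h1 T3 (Finset.filter_subset _ _) (u := m + 1 - D) (D := D) hD.le ?_
    intro n hn
    have := (Finset.mem_filter.1 hn).2
    exact ⟨this.1.le, by linarith [this.2]⟩
  calc _ ≤ ‖∑ n ∈ T1, z n‖ + ‖∑ n ∈ T2, z n‖ + ‖∑ n ∈ T3, z n‖ := norm_add₃_le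
    _ ≤ _ := by linarith

theorem seq_bound (hl : 0 < lam) (hA : 1 ≤ A) (hz : ∀ n, ‖z n‖ ≤ 1)
    (hs : ∀ n < N, z (n + 1) = z n * ee (δ n))
    (h1 : ∀ n, n + 1 < N → lam ≤ δ (n + 1) - δ n)
    (h2 : ∀ n, n + 1 < N → δ (n + 1) - δ n ≤ A * lam) (hlam : Real.sqrt lam ≤ 1/4) :
    ‖∑ n ∈ Finset.range N, z n‖ ≤ (A * lam * N + 2) * (5 / Real.sqrt lam) := by
  have hr : 0 < Real.sqrt lam := Real.sqrt_pos.2 hl
  rcases Nat.eq_zero_or_pos N with hN | hN
  · subst hN
    simp
    positivity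
  set K := (Finset.range N).image (fun n => ⌊δ n⌋) with hK
  have hsum : ∑ n ∈ Finset.range N, z n =
      ∑ m ∈ K, ∑ n ∈ (Finset.range N).filter (fun n => ⌊δ n⌋ = m), z n := by
    rw [Finset.sum_fiberwise_of_maps_to]
    intro n hn
    exact Finset.mem_image_of_mem _ hn
  have hcard : (K.card : ℝ) ≤ A * lam * N + 2 := by
    have hsub : K ⊆ Finset.Icc ⌊δ 0⌋ ⌊δ (N - 1)⌋ := by
      intro m hm
      obtain ⟨n, hn, rfl⟩ := Finset.mem_image.1 hm
      have hn' := Finset.mem_range.1 hn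
      rw [Finset.mem_Icc]
      exact ⟨Int.floor_le_floor (delta_mono hl h1 (Nat.zero_le n) hn'),
        Int.floor_le_floor (delta_mono hl h1 (by omega) (by omega))⟩
    have h3 := Finset.card_le_card hsub
    rw [Int.card_Icc] at h3
    have h01 : ⌊δ 0⌋ ≤ ⌊δ (N - 1)⌋ :=
      Int.floor_le_floor (delta_mono hl h1 (Nat.zero_le _) (by omega))
    have h4 : (K.card : ℤ) ≤ ⌊δ (N - 1)⌋ + 1 - ⌊δ 0⌋ := by omega
    have h5 : (K.card : ℝ) ≤ ⌊δ (N - 1)⌋ + 1 - ⌊δ 0⌋ := by exact_mod_cast h4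
    have h6 := delta_diff_up h2 (N - 1) 0 (by omega)
    rw [zero_add] at h6
    have h7 := Int.floor_le (δ (N - 1))
    have h8 := Int.sub_one_lt_floor (δ 0)
    have h9 : ((N - 1 : ℕ) : ℝ) * (A * lam) ≤ A * lam * N := by
      rw [mul_comm]
      apply mul_le_mul_of_nonneg_left _ (by positivity)
      exact_mod_cast Nat.sub_le N 1
    linarith
  rw [hsum]
  refine (norm_sum_le _ _).trans ?_
  have hc : ∀ m ∈ K, ‖∑ n ∈ (Finset.range N).filter (fun n => ⌊δ n⌋ = m), z n‖ ≤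
      5 / Real.sqrt lam := by
    intro m _
    refine (class_le hl hz hs h1 hr hlam m).trans ?_
    have e1 : Real.sqrt lam / lam = 1 / Real.sqrt lam := by
      rw [div_eq_div_iff hl.ne' hr.ne', Real.mul_self_sqrt hl.le, one_mul]
    rw [e1]
    have : 4 ≤ 1 / Real.sqrt lam := by
      rw [le_div_iff₀ hr]; linarith
    have e2 : 5 / Real.sqrt lam = 2 / Real.sqrt lam + 3 * (1 / Real.sqrt lam) := by ring
    rw [e2]
    linarith
  refine (Finset.sum_le_card_nsmul _ _ _ hc).trans ?_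
  rw [nsmul_eq_mul]
  exact mul_le_mul_of_nonneg_right hcard (by positivity)

end seq

/-! ### the test -/

theorem vdc : Vdc := by
  refine ⟨20, by norm_num, ?_⟩
  intro f f' f'' a b lam A hab hl hA hf hf' hff
  have hr : 0 < Real.sqrt lam := Real.sqrt_pos.2 hl
  obtain ⟨N, rfl⟩ := Nat.exists_eq_add_of_le hab.le
  have hN : 1 ≤ N := by omega
  have hN' : (1 : ℝ) ≤ N := by exact_mod_cast hN
  have eN : (((a + N : ℕ) : ℝ) - a) = N := by push_cast; ring
  rw [eN]
  have hfc : ContinuousOn f (Set.Icc (a : ℝ) ((a + N : ℕ) : ℝ)) :=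
    fun x hx => (hf x hx).continuousAt.continuousWithinAt
  have hfc' : ContinuousOn f' (Set.Icc (a : ℝ) ((a + N : ℕ) : ℝ)) :=
    fun x hx => (hf' x hx).continuousAt.continuousWithinAt
  have hpos : 0 < A * (N * Real.sqrt lam + 1 / Real.sqrt lam) := by positivity
  -- second differences
  have hsec : ∀ n : ℕ, n + 1 < N → ∃ w ∈ Set.Icc (a : ℝ) ((a + N : ℕ) : ℝ),
      (f ((a + (n + 1) + 1 : ℕ) : ℝ) - f ((a + (n + 1) : ℕ) : ℝ)) -
        (f ((a + n + 1 : ℕ) : ℝ) - f ((a + n : ℕ) : ℝ)) = f'' w := by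
    intro n hn
    have hn2 : ((n : ℝ) + 2) ≤ N := by exact_mod_cast hn
    have hn0 : (0 : ℝ) ≤ n := Nat.cast_nonneg n
    have hd : ∀ x ∈ Set.Icc ((a : ℝ) + n) (a + n + 1),
        HasDerivAt (fun x => f (x + 1) - f x) (f' (x + 1) - f' x) x := by
      intro x hx
      have e1 : HasDerivAt (fun x => f (x + 1)) (f' (x + 1)) x := by
        have := (hf (x + 1) ⟨by linarith [hx.1], by push_cast; linarith [hx.2]⟩)
        exact HasDerivAt.comp_add_const x 1 this
      have e2 := hf x ⟨by linarith [hx.1], by push_cast; linarith [hx.2]⟩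
      exact e1.sub e2
    obtain ⟨c, hc, hc'⟩ := exists_hasDerivAt_eq_slope (fun x => f (x + 1) - f x)
      (fun x => f' (x + 1) - f' x) (show (a : ℝ) + n < a + n + 1 by linarith)
      (fun x hx => (hd x hx).continuousAt.continuousWithinAt)
      (fun x hx => hd x ⟨hx.1.le, hx.2.le⟩)
    obtain ⟨w, hw, hw'⟩ := exists_hasDerivAt_eq_slope f' f'' (show c < c + 1 by linarith)
      (hfc'.mono (Set.Icc_subset_Icc (by linarith [hc.1]) (by push_cast; linarith [hc.2])))
      (fun x hx => hf' x ⟨by linarith [hc.1, hx.1], by push_cast; linarith [hc.2, hx.2]⟩)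
    refine ⟨w, ⟨by linarith [hc.1, hw.1], by push_cast; linarith [hc.2, hw.2]⟩, ?_⟩
    rw [hw']
    have e3 : c + 1 - c = 1 := by ring
    rw [e3, div_one, hc']
    have e4 : (a : ℝ) + n + 1 - (a + n) = 1 := by ring
    rw [e4, div_one]
    push_cast
    ring_nf
  have hsum : ∑ n ∈ Finset.Ioc a (a + N), ee (f n) =
      ∑ n ∈ Finset.range N, ee (f ((a + n : ℕ) : ℝ)) + (ee (f ((a + N : ℕ) : ℝ)) - ee (f (a : ℝ))) := by
    have h1 : ∑ n ∈ Finset.Ioc a (a + N), ee (f n) =
        ∑ n ∈ Finset.range N, ee (f ((a + (n + 1) : ℕ) : ℝ)) := by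
      rw [← Finset.Ico_add_one_add_one_eq_Ioc, Finset.sum_Ico_eq_sum_range]
      have e : a + N + 1 - (a + 1) = N := by omega
      rw [e]
      refine Finset.sum_congr rfl (fun n _ => ?_)
      congr 3
      omega
    rw [h1]
    have h2 := Finset.sum_range_succ (fun n => ee (f ((a + n : ℕ) : ℝ))) N
    have h3 := Finset.sum_range_succ' (fun n => ee (f ((a + n : ℕ) : ℝ))) N
    rw [h2] at h3
    simp only [add_zero] at h3
    linear_combination -h3
  rw [hsum]
  have hb : ‖ee (f ((a + N : ℕ) : ℝ)) - ee (f (a : ℝ))‖ ≤ 2 := by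
    refine (norm_sub_le _ _).trans ?_
    rw [norm_ee, norm_ee]
    norm_num
  have hge : 2 ≤ (N : ℝ) * Real.sqrt lam + 1 / Real.sqrt lam := by
    have h1 : Real.sqrt lam * (1 / Real.sqrt lam) = 1 := by field_simp
    have h2 : Real.sqrt lam ≤ N * Real.sqrt lam := by nlinarith
    have h3 : 0 < 1 / Real.sqrt lam := by positivity
    nlinarith [sq_nonneg (Real.sqrt lam - 1 / Real.sqrt lam)]
  refine (norm_add_le _ _).trans ?_
  rcases le_or_gt (Real.sqrt lam) (1/4) with hlam | hlam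
  · have hmain := seq_bound (z := fun n => ee (f ((a + n : ℕ) : ℝ)))
      (δ := fun n => f ((a + n + 1 : ℕ) : ℝ) - f ((a + n : ℕ) : ℝ)) (N := N) hl hA
      (fun n => (norm_ee _).le)
      (fun n _ => by
        rw [← ee_add]
        congr 1
        rw [← add_assoc]
        ring)
      (fun n hn => by
        obtain ⟨w, hw, hw'⟩ := hsec n hn
        rw [hw']
        exact (hff w hw).1)
      (fun n hn => by
        obtain ⟨w, hw, hw'⟩ := hsec n hn
        rw [hw']
        exact (hff w hw).2) hlam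
    have e5 : (A * lam * N + 2) * (5 / Real.sqrt lam) =
        5 * (A * (N * Real.sqrt lam)) + 10 * (1 / Real.sqrt lam) := by
      have h1 : Real.sqrt lam * Real.sqrt lam = lam := Real.mul_self_sqrt hl.le
      field_simp
      linear_combination (-(5 * A * N)) * h1
    rw [e5] at hmain
    have h3 : 0 < 1 / Real.sqrt lam := by positivity
    nlinarith [mul_nonneg (sub_nonneg.2 hA) h3.le, mul_pos (by linarith : 0 < A) h3,
      mul_nonneg (by linarith : 0 ≤ A) (mul_nonneg (by linarith : (0:ℝ) ≤ N) hr.le)]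
  · have htriv : ‖∑ n ∈ Finset.range N, ee (f ((a + n : ℕ) : ℝ))‖ ≤ N := by
      refine (norm_sum_le _ _).trans ?_
      refine (Finset.sum_le_sum (fun n _ => (norm_ee _).le)).trans ?_
      simp
    have h2 : (N : ℝ) ≤ 4 * (N * Real.sqrt lam) := by nlinarith
    have h3 : 0 < 1 / Real.sqrt lam := by positivity
    nlinarith [mul_nonneg (sub_nonneg.2 hA) h3.le, mul_pos (by linarith : 0 < A) h3,
      mul_nonneg (sub_nonneg.2 hA) (mul_nonneg (by linarith : (0:ℝ) ≤ N) hr.le)]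

end Pool.Agent.Helper64.QRH
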